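import Pool.Agent.Helper69.UX.StC

/-! # UX PR2: the mean as a function of `ρ` -/

set_option autoImplicit false

namespace Pool.Agent.Helper53.UX

open Finset Filter Topology Pool.Agent.Helper82.CN Pool.Agent.Helper11.PV Pool.Agent.Helper69.VX
  Pool.Agent.Helper69.UX

/-- the dominating weights -/
noncomputable def ww (L ρ : ℝ) (i : ℕ) : ℝ := ρ ^ i * Real.exp (-(L * (i * (i - 1)) / 2))

theorem ww_pos {L ρ : ℝ} (hρ : 0 < ρ) (i : ℕ) : 0 < ww L ρ i := by
  unfold ww; positivity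

theorem summ {L ρ : ℝ} (hL : 0 < L) (hρ : 0 < ρ) :
    Summable (fun i : ℕ => ((i : ℝ) + 1) * ww L ρ i) := by
  refine summable_of_ratio_test_tendsto_lt_one (l := 0) one_pos ?_ ?_
  · refine Filter.Eventually.of_forall fun i => ?_
    have := ww_pos (L := L) hρ i
    positivity
  · have h1 : ∀ i : ℕ, ‖((i + 1 : ℕ) + 1 : ℝ) * ww L ρ (i + 1)‖ / ‖((i : ℝ) + 1) * ww L ρ i‖ =
        (1 + 1 / ((i : ℝ) + 1)) * (ρ * Real.exp (-L) ^ i) := by
      intro i
      have h0 := ww_pos (L := L) hρ i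
      have h2 := ww_pos (L := L) hρ (i + 1)
      rw [Real.norm_of_nonneg (by positivity), Real.norm_of_nonneg (by positivity)]
      have h3 : ww L ρ (i + 1) = ww L ρ i * (ρ * Real.exp (-L) ^ i) := by
        unfold ww
        rw [pow_succ, ← Real.exp_nat_mul]
        have : Real.exp (-(L * (((i + 1 : ℕ) : ℝ) * (((i + 1 : ℕ) : ℝ) - 1)) / 2)) =
            Real.exp (-(L * ((i : ℝ) * ((i : ℝ) - 1)) / 2)) * Real.exp ((i : ℝ) * -L) := by
          rw [← Real.exp_add]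
          congr 1
          push_cast
          ring
        rw [this]
        ring
      rw [h3]
      push_cast
      field_simp
      try ring
    simp_rw [h1]
    have h4 : Tendsto (fun i : ℕ => 1 + 1 / ((i : ℝ) + 1)) atTop (𝓝 (1 + 0)) :=
      tendsto_const_nhds.add tendsto_one_div_add_atTop_nhds_zero_nat
    have h5 : Tendsto (fun i : ℕ => ρ * Real.exp (-L) ^ i) atTop (𝓝 (ρ * 0)) := by
      refine tendsto_const_nhds.mul (tendsto_pow_atTop_nhds_zero_of_lt_one (Real.exp_pos _).le ?_)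
      rw [Real.exp_lt_one_iff]
      linarith
    have h6 := h4.mul h5
    simpa using h6

theorem ai_le {L ρ : ℝ} (hρ : 0 < ρ) (T i : ℕ) : ai L ρ T i ≤ ww L ρ i := by
  unfold ai ww
  have h1 : (T.descFactorial i : ℝ) / (T : ℝ) ^ i ≤ 1 := by
    refine div_le_one_of_le₀ ?_ (by positivity)
    exact_mod_cast Nat.descFactorial_le_pow T i
  have h2 : 0 ≤ ρ ^ i := by positivity
  have h3 := Real.exp_pos (-(L * ((i : ℝ) * (i - 1)) / 2))
  have h4 : ρ ^ i * ((T.descFactorial i : ℝ) / (T : ℝ) ^ i) ≤ ρ ^ i := by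
    calc ρ ^ i * ((T.descFactorial i : ℝ) / (T : ℝ) ^ i) ≤ ρ ^ i * 1 :=
          mul_le_mul_of_nonneg_left h1 h2
      _ = ρ ^ i := mul_one _
  exact mul_le_mul_of_nonneg_right h4 h3.le

theorem ai_nonneg {L ρ : ℝ} (hρ : 0 < ρ) (T i : ℕ) : 0 ≤ ai L ρ T i := by
  unfold ai; positivity

theorem ai_pos {L ρ : ℝ} (hρ : 0 < ρ) {T i : ℕ} (h : i < T) : 0 < ai L ρ T i := by
  unfold ai
  have h1 : 0 < T.descFactorial i := Nat.descFactorial_pos.2 h.le
  have h2 : 0 < T := by omega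
  positivity

theorem ai_zero (L ρ : ℝ) (T : ℕ) : ai L ρ T 0 = 1 := by
  simp [ai]

theorem ww_mono {L ρ σ : ℝ} (hρ : 0 < ρ) (h : ρ ≤ σ) (i : ℕ) : ww L ρ i ≤ ww L σ i := by
  unfold ww
  exact mul_le_mul_of_nonneg_right (pow_le_pow_left₀ hρ.le h i) (Real.exp_pos _).le

theorem one_le_As {L ρ : ℝ} (hρ : 0 < ρ) {T : ℕ} (hT : 1 ≤ T) : 1 ≤ As L ρ T := by
  unfold As
  rw [← ai_zero L ρ T]
  exact single_le_sum (fun i _ => ai_nonneg hρ T i) (mem_range.2 (by omega))

/-- sums up to `T` against the series -/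
theorem sum_le {L ρ : ℝ} (hL : 0 < L) (hρ : 0 < ρ) (T : ℕ) :
    ∑ i ∈ range T, ((i : ℝ) + 1) * ww L ρ i ≤ ∑' i : ℕ, ((i : ℝ) + 1) * ww L ρ i := by
  refine (summ hL hρ).sum_le_tsum _ fun i _ => ?_
  have := ww_pos (L := L) hρ i
  positivity

theorem step {L ρ : ℝ} (hL : 0 < L) {I T : ℕ} (hρ : ρ = 4 * Real.exp (2 * I * L)) (hT : 4 * I < T)
    {l : ℕ} (hl : l < 2 * I) : 2 * ai L ρ T l ≤ ai L ρ T (l + 1) := by
  have hρ0 : 0 < ρ := by rw [hρ]; positivity
  have hT0 : (0 : ℝ) < T := by exact_mod_cast (by omega : 0 < T)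
  have h1 : ai L ρ T (l + 1) = ai L ρ T l * (ρ * (((T : ℝ) - l) / T) * Real.exp (-(L * l))) := by
    unfold ai
    rw [Nat.descFactorial_succ]
    have h2 : (((T - l : ℕ) : ℝ)) = (T : ℝ) - l := by
      rw [Nat.cast_sub (by omega)]
    push_cast
    rw [h2]
    have h3 : Real.exp (-(L * (((l : ℝ) + 1) * ((l : ℝ) + 1 - 1)) / 2)) =
        Real.exp (-(L * ((l : ℝ) * ((l : ℝ) - 1)) / 2)) * Real.exp (-(L * l)) := by
      rw [← Real.exp_add]
      congr 1
      ring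
    rw [h3]
    field_simp
    ring
  rw [h1]
  have h4 : 2 ≤ ρ * (((T : ℝ) - l) / T) * Real.exp (-(L * l)) := by
    have h5 : (1 / 2 : ℝ) ≤ ((T : ℝ) - l) / T := by
      rw [le_div_iff₀ hT0]
      have : (2 : ℝ) * l ≤ T := by exact_mod_cast (by omega : 2 * l ≤ T)
      linarith
    have h6 : Real.exp (-(2 * I * L)) ≤ Real.exp (-(L * l)) := by
      apply Real.exp_le_exp.2
      have : (l : ℝ) ≤ 2 * I := by exact_mod_cast hl.le
      nlinarith
    have h7 : ρ * (1 / 2) * Real.exp (-(2 * I * L)) = 2 := by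
      rw [hρ]
      have : Real.exp (2 * I * L) * Real.exp (-(2 * I * L)) = 1 := by
        rw [← Real.exp_add]; simp
      linear_combination 2 * this
    rw [← h7]
    have h8 : ρ * (1 / 2) ≤ ρ * (((T : ℝ) - l) / T) := mul_le_mul_of_nonneg_left h5 hρ0.le
    exact mul_le_mul h8 h6 (Real.exp_pos _).le (by positivity)
  have h9 := ai_nonneg (L := L) hρ0 T l
  nlinarith

theorem steps {L ρ : ℝ} (hL : 0 < L) {I T : ℕ} (hρ : ρ = 4 * Real.exp (2 * I * L))
    (hT : 4 * I < T) {l : ℕ} (m : ℕ) (hl : l + m ≤ 2 * I) :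
    2 ^ m * ai L ρ T l ≤ ai L ρ T (l + m) := by
  induction m with
  | zero => simp
  | succ m ih =>
    have h1 := ih (by omega)
    have h2 := step hL hρ hT (l := l + m) (by omega)
    rw [pow_succ]
    calc 2 ^ m * 2 * ai L ρ T l = 2 * (2 ^ m * ai L ρ T l) := by ring
      _ ≤ 2 * ai L ρ T (l + m) := by linarith
      _ ≤ ai L ρ T (l + m + 1) := h2

theorem upper {L ρ : ℝ} (hL : 0 < L) {I T : ℕ} (hρ : ρ = 4 * Real.exp (2 * I * L))
    (hI : 1 ≤ I) (hI2 : 2 / L + 1 ≤ ((I : ℝ) + 1) / 2) (hT : 4 * I < T) :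
    (2 / L + 1) * As L ρ T ≤ Bs L ρ T := by
  have hρ0 : 0 < ρ := by rw [hρ]; positivity
  have hA := one_le_As (L := L) hρ0 (T := T) (by omega)
  -- the lower part
  have h1 : (2 : ℝ) ^ I * ∑ i ∈ range (I + 1), ai L ρ T i ≤ As L ρ T := by
    rw [Finset.mul_sum]
    calc ∑ i ∈ range (I + 1), (2 : ℝ) ^ I * ai L ρ T i
        ≤ ∑ i ∈ range (I + 1), ai L ρ T (i + I) := by
          refine Finset.sum_le_sum fun i hi => ?_
          have := mem_range.1 hi
          exact steps hL hρ hT I (by omega)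
      _ = ∑ j ∈ (range (I + 1)).image (fun i => i + I), ai L ρ T j := by
          rw [sum_image (fun a _ b _ h => by simpa using h)]
      _ ≤ As L ρ T := by
          unfold As
          refine sum_le_sum_of_subset_of_nonneg ?_ fun i _ _ => ai_nonneg hρ0 T i
          intro j hj
          rw [mem_image] at hj
          obtain ⟨i, hi, rfl⟩ := hj
          have := mem_range.1 hi
          exact mem_range.2 (by omega)
  have h2 : (2 : ℝ) ≤ 2 ^ I := by
    calc (2 : ℝ) = 2 ^ 1 := by norm_num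
      _ ≤ 2 ^ I := pow_le_pow_right₀ (by norm_num) hI
  have h3 : 0 ≤ ∑ i ∈ range (I + 1), ai L ρ T i :=
    Finset.sum_nonneg fun i _ => ai_nonneg hρ0 T i
  have h4 : ∑ i ∈ range (I + 1), ai L ρ T i ≤ As L ρ T / 2 := by nlinarith
  -- split
  have h5 : As L ρ T = ∑ i ∈ range (I + 1), ai L ρ T i + ∑ i ∈ Ico (I + 1) T, ai L ρ T i := by
    unfold As
    rw [sum_range_add_sum_Ico _ (by omega)]
  have h6 : ((I : ℝ) + 1) * ∑ i ∈ Ico (I + 1) T, ai L ρ T i ≤ Bs L ρ T := by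
    unfold Bs
    rw [Finset.mul_sum]
    calc ∑ i ∈ Ico (I + 1) T, ((I : ℝ) + 1) * ai L ρ T i
        ≤ ∑ i ∈ Ico (I + 1) T, (i : ℝ) * ai L ρ T i := by
          refine Finset.sum_le_sum fun i hi => ?_
          have h7 := (mem_Ico.1 hi).1
          have h8 : (I : ℝ) + 1 ≤ i := by exact_mod_cast h7
          exact mul_le_mul_of_nonneg_right h8 (ai_nonneg hρ0 T i)
      _ ≤ ∑ i ∈ range T, (i : ℝ) * ai L ρ T i := by
          refine sum_le_sum_of_subset_of_nonneg ?_ fun i _ _ =>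
            mul_nonneg (Nat.cast_nonneg _) (ai_nonneg hρ0 T i)
          intro i hi
          exact mem_range.2 (mem_Ico.1 hi).2
  have h7 : As L ρ T / 2 ≤ ∑ i ∈ Ico (I + 1) T, ai L ρ T i := by linarith
  have h8 : (0 : ℝ) ≤ (I : ℝ) + 1 := by positivity
  have h9 : ((I : ℝ) + 1) * (As L ρ T / 2) ≤ Bs L ρ T :=
    (mul_le_mul_of_nonneg_left h7 h8).trans h6
  nlinarith

/-- Proof of `StPR2`. -/
theorem hPR2 : StPR2 := by
  intro L ε hL hL2 hε
  set S1 : ℝ := ∑' i : ℕ, ((i : ℝ) + 1) * ww L 1 i with hS1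
  have hS1pos : 1 ≤ S1 := by
    have h1 : ((0 : ℕ) : ℝ) + 1 ≤ S1 := by
      have h2 := (summ hL one_pos).sum_le_tsum ({0} : Finset ℕ) (fun i _ => by
        have := ww_pos (L := L) one_pos i
        positivity)
      rw [hS1]
      simpa [ww] using h2
    simpa using h1
  set ρ₁ : ℝ := min 1 (ε / S1) with hρ₁
  have hρ₁0 : 0 < ρ₁ := by
    rw [hρ₁]
    exact lt_min one_pos (by positivity)
  have hρ₁1 : ρ₁ ≤ 1 := min_le_left _ _
  have hρ₁ε : ρ₁ * S1 ≤ ε := by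
    have h1 : ρ₁ ≤ ε / S1 := min_le_right _ _
    calc ρ₁ * S1 ≤ ε / S1 * S1 := by nlinarith
      _ = ε := by field_simp
  set I : ℕ := 2 * ⌈2 / L⌉₊ + 4 with hI
  set ρ₂ : ℝ := 4 * Real.exp (2 * I * L) with hρ₂
  have hρ₂4 : 4 ≤ ρ₂ := by
    have : 1 ≤ Real.exp (2 * I * L) := by
      apply Real.one_le_exp
      positivity
    rw [hρ₂]; linarith
  have hρ₂0 : 0 < ρ₂ := by linarith
  set S2 : ℝ := ∑' i : ℕ, ((i : ℝ) + 1) * ww L ρ₂ i with hS2
  set C : ℝ := max (max 1 ρ₂) (max (1 / ρ₁) S2) with hC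
  have hC1 : 1 ≤ C := (le_max_left _ _).trans (le_max_left _ _)
  have hC2 : ρ₂ ≤ C := (le_max_right _ _).trans (le_max_left _ _)
  have hC3 : 1 / ρ₁ ≤ C := (le_max_left _ _).trans (le_max_right _ _)
  have hC4 : S2 ≤ C := (le_max_right _ _).trans (le_max_right _ _)
  refine ⟨ρ₁, ρ₂, C, hρ₁0, by linarith, hC1, hC2, hC3, 4 * I + 1, fun T hT => ?_⟩
  have hT1 : 1 ≤ T := by omega
  have hI2 : 2 / L + 1 ≤ ((I : ℝ) + 1) / 2 := by
    have h1 : 2 / L ≤ (⌈2 / L⌉₊ : ℝ) := Nat.le_ceil _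
    rw [hI]
    push_cast
    linarith
  refine ⟨?_, upper hL hρ₂ (by omega) hI2 (by omega), ?_, ?_, ?_⟩
  · have hA := one_le_As (L := L) hρ₁0 hT1
    have hB : Bs L ρ₁ T ≤ ρ₁ * S1 := by
      have h1 : Bs L ρ₁ T ≤ ρ₁ * ∑ i ∈ range T, ((i : ℝ) + 1) * ww L 1 i := by
        unfold Bs
        rw [Finset.mul_sum]
        refine Finset.sum_le_sum fun i _ => ?_
        rcases Nat.eq_zero_or_pos i with rfl | hi
        · have := ww_pos (L := L) one_pos 0
          simp only [Nat.cast_zero, zero_mul, zero_add, one_mul]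
          positivity
        · have h2 : ai L ρ₁ T i ≤ ρ₁ * ww L 1 i := by
            refine (ai_le hρ₁0 T i).trans ?_
            unfold ww
            have h3 : ρ₁ ^ i ≤ ρ₁ := by
              calc ρ₁ ^ i ≤ ρ₁ ^ 1 := pow_le_pow_of_le_one hρ₁0.le hρ₁1 hi
                _ = ρ₁ := pow_one _
            rw [one_pow, one_mul]
            exact mul_le_mul_of_nonneg_right h3 (Real.exp_pos _).le
          have h4 := ww_pos (L := L) one_pos i
          calc (i : ℝ) * ai L ρ₁ T i ≤ (i : ℝ) * (ρ₁ * ww L 1 i) :=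
                mul_le_mul_of_nonneg_left h2 (Nat.cast_nonneg _)
            _ ≤ ((i : ℝ) + 1) * (ρ₁ * ww L 1 i) := by
                refine mul_le_mul_of_nonneg_right (by linarith) (by positivity)
            _ = ρ₁ * (((i : ℝ) + 1) * ww L 1 i) := by ring
      exact h1.trans (mul_le_mul_of_nonneg_left (sum_le hL one_pos T) hρ₁0.le)
    nlinarith
  · apply Continuous.continuousOn
    unfold As ai
    fun_prop
  · apply Continuous.continuousOn
    unfold Bs ai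
    fun_prop
  · intro ρ h1 h2
    have hρ0 : 0 < ρ := hρ₁0.trans_le h1
    have hA := one_le_As (L := L) hρ0 hT1
    have hdom : ∀ i, ai L ρ T i ≤ ww L ρ₂ i := fun i => (ai_le hρ0 T i).trans (ww_mono hρ0 h2 i)
    have hsum := sum_le (L := L) hL hρ₂0 T
    refine ⟨hA, ?_, ?_, fun i hi => ⟨ai_pos hρ0 hi, hdom i⟩⟩
    · have h3 : As L ρ T ≤ ∑ i ∈ range T, ((i : ℝ) + 1) * ww L ρ₂ i := by
        unfold As
        refine Finset.sum_le_sum fun i _ => (hdom i).trans ?_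
        have h4 := ww_pos (L := L) hρ₂0 i
        have h5 : (0 : ℝ) ≤ i := Nat.cast_nonneg _
        nlinarith
      linarith
    · have h3 : Bs L ρ T ≤ ∑ i ∈ range T, ((i : ℝ) + 1) * ww L ρ₂ i := by
        unfold Bs
        refine Finset.sum_le_sum fun i _ => ?_
        have h4 := ww_pos (L := L) hρ₂0 i
        have h5 : (0 : ℝ) ≤ i := Nat.cast_nonneg _
        have h6 := hdom i
        calc (i : ℝ) * ai L ρ T i ≤ (i : ℝ) * ww L ρ₂ i := mul_le_mul_of_nonneg_left h6 h5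
          _ ≤ ((i : ℝ) + 1) * ww L ρ₂ i := by nlinarith
      have h4 : Bs L ρ T ≤ C := by linarith
      nlinarith

end Pool.Agent.Helper53.UX
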